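import Mathlib
import Pool.Agent.TH497.PW.IntFlow
import Pool.Agent.TH676.Z.ApexH
import Pool.Agent.TH676.Z.AphMC
import Pool.Agent.TH676.Z.Edge14
import Pool.Agent.TH676.Z.Split
import Pool.Agent.TH676.Z.MacDel
import Pool.Agent.TH362.FP.Pos

set_option autoImplicit false

/-!
# Nowhere-zero 5-flows in apex graphs of surfaces (MP_c8786f_co)

Let `G` be a bridgeless multigraph and let `S` be a set of `k` vertices such that `G - S` satisfies
MacLane's condition with defect `h`: there is a family of elements of the cycle space over `GF(2)`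
of `G - S` such that every edge is in at most two of them and the codimension of their span in the
cycle space is at most `h`.  For an embedding of `G - S` in a surface of Euler genus `h` the
boundaries of the faces are such a family.  If `k = 0`, `h ≤ 5` or `k ≤ 1`, `h ≤ 4` or `k ≤ 2`,
`h ≤ 3` or `k ≤ 3`, `h ≤ 1`, then `G` has a nowhere-zero 5-flow.  In particular this holds if `G`
becomes planar by the deletion of at most three vertices.  The degrees (also those of the vertices
of `S`), the connectivity and the order are arbitrary.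

Proof.  The class of these graphs is closed under minors.  Let `G` be a minimal counterexample.

(1) All edge cuts have at least three edges, a cut with three edges isolates a vertex, and `G` has no
circuit with at most seven edges.  For at most six edges one deletes at most three edges of the
circuit and contracts the others.  For seven edges: the number of the functions on `G` without the
circuit with prescribed values of the boundary at the seven vertices is a combination of the
indicator functions of the events that all blocks of a partition of the seven vertices have sum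
zero.  It vanishes for all prescribed values for which the prefix sums miss an element of `Z_5`;
certificates evaluated by the kernel (linear relations between the values of the indicator
functions of all partitions) show that it vanishes for all prescribed values, and so the graph in
which three edges of the circuit are deleted and four contracted has no flow either.

(2) So nonzero elements of the cycle space have at least eight edges and the family of faces,
completed by the sum of all of them, gives `8 (c - h + 1) ≤ 2 m'` for the dimension `c ≥ m' - n' + 1`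
of the cycle space of `G - S`, where `m'` and `n'` are the numbers of edges and vertices.

(3) Degrees: `3 n' ≤ 2 m' + D`, where `D` is the sum of the degrees of the vertices of `S`.

(4) If `s` has degree `D_s` then there are at least `14 D_s` edges at distance at most two from the
neighbours of `s` which are not at `s` (balls in a graph with girth at least eight), so that
`15 D_s ≤ m' + D`.  These inequalities contradict each other.

The theorem is stated for the characteristic polynomial of the bond matroid of `G`, a binary matroid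
without a minor isomorphic to `F_7`, `M(K_5)` or `M(K_{3,3})`, which is loopless since `G` has no
bridge.
-/

namespace Pool.Agent.Results.MP_c8786f_co.ApexSurfaces

open Pool.Agent.TH497.PW

variable {V E : Type}

/-- The edges with exactly one end in `Y`. -/
def boundary [DecidableEq V] [Fintype E] (src dst : E → V) (Y : Finset V) : Finset E :=
  Finset.univ.filter (fun e => ¬ (src e ∈ Y ↔ dst e ∈ Y))

/-- Kirchhoff's law. -/
def IsFlow [DecidableEq V] [Fintype E] (src dst : E → V) (f : E → ℤ) : Prop :=
  ∀ v : V, ∑ e ∈ Finset.univ.filter (fun e => src e = v), f e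
    = ∑ e ∈ Finset.univ.filter (fun e => dst e = v), f e

/-- The cycle space over `GF(2)` of the graph `G - S`: the functions on the edges which are zero on
the edges with an end in `S` and which satisfy Kirchhoff's law modulo 2. -/
def cycleSpace [DecidableEq V] [Fintype E] (src dst : E → V) (S : Finset V) :
    Submodule (ZMod 2) (E → ZMod 2) where
  carrier := {x | (∀ e, (src e ∈ S ∨ dst e ∈ S) → x e = 0) ∧
    ∀ v : V, ∑ e ∈ Finset.univ.filter (fun e => src e = v), x e
      + ∑ e ∈ Finset.univ.filter (fun e => dst e = v), x e = 0}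
  add_mem' := by
    rintro a b ⟨h1, h2⟩ ⟨h3, h4⟩
    refine ⟨fun e he => by rw [Pi.add_apply, h1 e he, h3 e he, add_zero], fun v => ?_⟩
    simp only [Pi.add_apply, Finset.sum_add_distrib]
    have := congrArg₂ (· + ·) (h2 v) (h4 v)
    simp only [add_zero] at this
    rw [← this]
    ring
  zero_mem' := ⟨fun _ _ => rfl, fun v => by simp⟩
  smul_mem' := by
    rintro c a ⟨h1, h2⟩
    refine ⟨fun e he => by rw [Pi.smul_apply, h1 e he, smul_zero], fun v => ?_⟩
    simp only [Pi.smul_apply, smul_eq_mul, ← Finset.mul_sum]
    rw [← mul_add, h2 v, mul_zero]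

/-- MacLane's condition with defect `h` for the graph `G - S`: there is a finite family of elements
of the cycle space of `G - S` such that every edge is in at most two of them and the dimension of
the cycle space is at most the dimension of their span plus `h`. -/
def MacLaneDefect [DecidableEq V] [Fintype E] (src dst : E → V) (S : Finset V) (h : ℕ) : Prop :=
  ∃ (k : ℕ) (K : Fin k → E → ZMod 2), (∀ i, K i ∈ cycleSpace src dst S) ∧
    (∀ e, (Finset.univ.filter (fun i => K i e ≠ 0)).card ≤ 2) ∧
    Module.finrank (ZMod 2) (cycleSpace src dst S) ≤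
      Module.finrank (ZMod 2) (Submodule.span (ZMod 2) (Set.range K)) + h

/-- The number of the connected components of the graph with the vertices `V` and the edges `A`. -/
noncomputable def components (src dst : E → V) (A : Finset E) : ℕ :=
  Nat.card (SimpleGraph.fromRel
    (fun u v : V => ∃ e ∈ A, src e = u ∧ dst e = v)).ConnectedComponent

/-- The rank of `A` in the cycle matroid of the graph. -/
noncomputable def cycleRank [Fintype V] (src dst : E → V) (A : Finset E) : ℕ :=
  Fintype.card V - components src dst A

/-- The rank of `A` in the bond matroid of the graph, the dual of the cycle matroid: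
`|A| + r(E \ A) - r(E)`. -/
noncomputable def bondRank [Fintype V] [Fintype E] [DecidableEq E] (src dst : E → V)
    (A : Finset E) : ℕ :=
  A.card + cycleRank src dst Aᶜ - cycleRank src dst Finset.univ

/-- The characteristic polynomial of the bond matroid, `∑ (-1)^|A| x^(r*(E) - r*(A))`. -/
noncomputable def characteristic [Fintype V] [Fintype E] [DecidableEq E] (src dst : E → V)
    (x : ℤ) : ℤ :=
  ∑ A : Finset E, (-1) ^ A.card * x ^ (bondRank src dst Finset.univ - bondRank src dst A)

theorem isFlow_iff [DecidableEq V] [Fintype E] (src dst : E → V) (f : E → ℤ) :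
    IsFlow src dst f ↔
      ∀ v, ∑ e, f e * ((if src e = v then 1 else 0) - (if dst e = v then 1 else 0)) = 0 := by
  unfold IsFlow
  refine forall_congr' fun v => ?_
  rw [Finset.sum_filter, Finset.sum_filter, ← sub_eq_zero, ← Finset.sum_sub_distrib]
  have : ∀ e, (if src e = v then f e else 0) - (if dst e = v then f e else 0)
      = f e * ((if src e = v then 1 else 0) - (if dst e = v then 1 else 0)) := by
    intro e
    by_cases h1 : src e = v <;> by_cases h2 : dst e = v <;> simp [h1, h2]
  rw [Finset.sum_congr rfl (fun e _ => this e)]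

theorem nzf [Fintype V] [DecidableEq V] [Fintype E] [DecidableEq E] (src dst : E → V)
    (h : Pool.Agent.TH676.Z.FlowOn src dst ∅ ∅) : NZF src dst := by
  obtain ⟨f, h1, _, h3⟩ := h
  refine ⟨f, fun e => h3 e (Finset.notMem_empty _) (Finset.notMem_empty _), fun x => ?_⟩
  rw [← h1 x]
  unfold Pool.Agent.TH676.Z.bd
  refine Finset.sum_congr rfl fun e _ => ?_
  unfold ic
  by_cases h4 : src e = x <;> by_cases h5 : dst e = x <;> simp [h4, h5]

theorem cycleSpace_eq [Fintype V] [DecidableEq V] [Fintype E] [DecidableEq E] (src dst : E → V)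
    (S : Finset V) : cycleSpace src dst S =
      Pool.Agent.TH676.Z.ZF src dst
        (Finset.univ.filter (fun e => src e ∉ S ∧ dst e ∉ S)) := by
  ext x
  have h2 : ∀ v, Pool.Agent.TH676.Z.bd2 src dst x v =
      ∑ e ∈ Finset.univ.filter (fun e => src e = v), x e
        + ∑ e ∈ Finset.univ.filter (fun e => dst e = v), x e := by
    intro v
    unfold Pool.Agent.TH676.Z.bd2
    rw [Finset.sum_add_distrib, Finset.sum_filter, Finset.sum_filter]
  constructor
  · rintro ⟨h, h'⟩
    refine ⟨fun e he => h e ?_, fun v => by rw [h2 v]; exact h' v⟩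
    by_contra hc
    push Not at hc
    exact he (Finset.mem_filter.mpr ⟨Finset.mem_univ _, hc⟩)
  · rintro ⟨h, h'⟩
    refine ⟨fun e he => h e ?_, fun v => by rw [← h2 v]; exact h' v⟩
    intro hc
    rcases he with he | he
    · exact (Finset.mem_filter.mp hc).2.1 he
    · exact (Finset.mem_filter.mp hc).2.2 he

theorem mac_mono [Fintype V] [DecidableEq V] [Fintype E] [DecidableEq E] {src dst : E → V}
    {F : Finset E} {h h' : ℕ} (hh : h ≤ h') (hM : Pool.Agent.TH676.Z.Mac h src dst F) :
    Pool.Agent.TH676.Z.Mac h' src dst F := by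
  obtain ⟨k, K, h1, h2, h3⟩ := hM
  exact ⟨k, K, h1, h2, h3.trans (Nat.add_le_add_left hh _)⟩

/-- deletion of the edges in `D` -/
theorem mac_sdiff [Fintype V] [DecidableEq V] [Fintype E] [DecidableEq E] {src dst : E → V}
    {F : Finset E} {h : ℕ} (D : Finset E) (hM : Pool.Agent.TH676.Z.Mac h src dst F) :
    Pool.Agent.TH676.Z.Mac h src dst (F \ D) := by
  induction D using Finset.induction_on with
  | empty => rw [Finset.sdiff_empty]; exact hM
  | insert e D _ ih =>
    rw [Finset.sdiff_insert]
    exact Pool.Agent.TH676.Z.macDel V E src dst (F \ D) h e ih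

theorem flow :
    ∀ (V E : Type) [Fintype V] [DecidableEq V] [Fintype E] [DecidableEq E]
      (src dst : E → V) (S : Finset V) (h : ℕ),
      ((S.card = 0 ∧ h ≤ 5) ∨ (S.card ≤ 1 ∧ h ≤ 4) ∨ (S.card ≤ 2 ∧ h ≤ 3) ∨
        (S.card ≤ 3 ∧ h ≤ 1)) →
      MacLaneDefect src dst S h →
      (∀ Y : Finset V, (boundary src dst Y).card ≠ 1) →
      ∃ f : E → ℤ, IsFlow src dst f ∧ ∀ e, 1 ≤ |f e| ∧ |f e| ≤ 4 := by
  intro V E _ _ _ _ src dst S h hkh hM hb
  have hM1 : Pool.Agent.TH676.Z.Mac h src dst
      (Finset.univ.filter (fun e => src e ∉ S ∧ dst e ∉ S)) := by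
    obtain ⟨k, K, h1, h2, h3⟩ := hM
    rw [cycleSpace_eq] at h3
    exact ⟨k, K, fun i => by rw [← cycleSpace_eq]; exact h1 i, h2, h3⟩
  have hM2 : Pool.Agent.TH676.Z.Mac h src dst (Pool.Agent.TH676.Z.ES src dst S) := by
    have h3 := mac_sdiff (Finset.univ.filter (fun e => src e = dst e)) hM1
    have h4 : Pool.Agent.TH676.Z.ES src dst S =
        (Finset.univ.filter (fun e => src e ∉ S ∧ dst e ∉ S)) \
          (Finset.univ.filter (fun e => src e = dst e)) := by
      ext e
      unfold Pool.Agent.TH676.Z.ES
      simp only [Finset.mem_filter, Finset.mem_univ, true_and, Finset.mem_sdiff]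
      tauto
    rw [h4]
    exact h3
  have hbr : Pool.Agent.TH676.Z.Br src dst ∅ ∅ :=
    fun Y _ => by rw [Finset.sdiff_empty]; exact hb Y
  have hfl : Pool.Agent.TH676.Z.FlowOn src dst ∅ ∅ := by
    rcases hkh with ⟨h1, h2⟩ | ⟨h1, h2⟩ | ⟨h1, h2⟩ | ⟨h1, h2⟩
    · exact Pool.Agent.TH676.Z.apexH Pool.Agent.TH676.Z.aphMC Pool.Agent.TH676.Z.edge14
        Pool.Agent.TH676.Z.split V E src dst 0 5 (Or.inl ⟨rfl, rfl⟩)
        ⟨S, h1.le, mac_mono h2 hM2⟩ hbr
    · exact Pool.Agent.TH676.Z.apexH Pool.Agent.TH676.Z.aphMC Pool.Agent.TH676.Z.edge14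
        Pool.Agent.TH676.Z.split V E src dst 1 4 (Or.inr (Or.inl ⟨rfl, rfl⟩))
        ⟨S, h1, mac_mono h2 hM2⟩ hbr
    · exact Pool.Agent.TH676.Z.apexH Pool.Agent.TH676.Z.aphMC Pool.Agent.TH676.Z.edge14
        Pool.Agent.TH676.Z.split V E src dst 2 3 (Or.inr (Or.inr (Or.inl ⟨rfl, rfl⟩)))
        ⟨S, h1, mac_mono h2 hM2⟩ hbr
    · exact Pool.Agent.TH676.Z.apexH Pool.Agent.TH676.Z.aphMC Pool.Agent.TH676.Z.edge14
        Pool.Agent.TH676.Z.split V E src dst 3 1 (Or.inr (Or.inr (Or.inr ⟨rfl, rfl⟩)))
        ⟨S, h1, mac_mono h2 hM2⟩ hbr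
  obtain ⟨F, hF, hF0⟩ := int_flow src dst (nzf src dst hfl)
  exact ⟨F, (isFlow_iff src dst F).mpr hF0, hF⟩

theorem result :
    ∀ (V E : Type) [Fintype V] [DecidableEq V] [Fintype E] [DecidableEq E]
      (src dst : E → V) (S : Finset V) (h : ℕ),
      ((S.card = 0 ∧ h ≤ 5) ∨ (S.card ≤ 1 ∧ h ≤ 4) ∨ (S.card ≤ 2 ∧ h ≤ 3) ∨
        (S.card ≤ 3 ∧ h ≤ 1)) →
      MacLaneDefect src dst S h →
      (∀ Y : Finset V, (boundary src dst Y).card ≠ 1) →
      ∀ q : ℕ, 5 ≤ q → 0 < characteristic src dst q := by
  intro V E _ _ _ _ src dst S h hkh hM hb q hq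
  obtain ⟨f, hf0, hf⟩ := flow V E src dst S h hkh hM hb
  exact Pool.Agent.TH362.FP.chr_pos src dst f hf hf0 q hq

end Pool.Agent.Results.MP_c8786f_co.ApexSurfaces
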