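import Mathlib
import Pool.Agent.TH497.PW.IntFlow
import Pool.Agent.TH497.TW.Std
import Pool.Agent.TH676.Z.Main
import Pool.Agent.TH362.FP.Pos

set_option autoImplicit false

/-!
# Nowhere-zero 5-flows in graphs of treewidth at most six (MP_c8786f_co)

Every bridgeless multigraph of treewidth at most `6` has a nowhere-zero 5-flow.  There is no
condition on the degrees, on the connectivity or on the number of vertices.

Proof.  Let `G` be a counterexample with a tree decomposition with bags of at most seven vertices
and with as few edges as possible; all bridgeless proper minors of `G` have nowhere-zero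
`Z_5`-flows.

(1) All edge cuts have at least three edges, and a cut with three edges isolates a vertex: the
number of nowhere-zero flows on one side of a cut with three edges is the same for all triples of
nonzero values on the cut (up to the order of deletion and contraction it is a combination of
numbers which do not depend on the triple), so that flows on the two sides can be glued.

(2) `G` has no circuit with at most six edges: delete no edge (length 2, 3, 4), two edges (5) or
three edges (6) of the circuit which are pairwise not adjacent and contract the other edges; by (1)
the result has no bridge.  To a flow of this minor one adds a multiple of the circuit; at most four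
of the five multiples are forbidden.

(3) A graph in which every vertex has at least three neighbours and every circuit has at least
seven edges has treewidth at least seven.  The vertices are eliminated along a tree decomposition
with bags of at most seven vertices; the components of the eliminated part are always trees with
one, two, three or four vertices: when a vertex `r` is eliminated, the components at `r` have
together at most six outer neighbours different from `r`, and counting these (those at distances
`i`, `j` from `r` in different components are different if `i + j` is at most six, and a vertex has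
at most one neighbour among those at distance at most three in another component) excludes all
configurations which would give a larger component.  But the last component has no outer
neighbours.  The McGee graph (girth seven, treewidth seven) shows that this is the limit of (3).

The theorem is stated for the characteristic polynomial of the bond matroid of `G`, a binary matroid
without a minor isomorphic to `F_7`, `M(K_5)` or `M(K_{3,3})`, which is loopless since `G` has no
bridge.
-/

namespace Pool.Agent.Results.MP_c8786f_co.TreewidthSix

open Pool.Agent.TH497.PW Pool.Agent.TH497.TW

variable {V E ι : Type}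

/-- The edges with exactly one end in `Y`. -/
def boundary [DecidableEq V] [Fintype E] (src dst : E → V) (Y : Finset V) : Finset E :=
  Finset.univ.filter (fun e => ¬ (src e ∈ Y ↔ dst e ∈ Y))

/-- Kirchhoff's law. -/
def IsFlow [DecidableEq V] [Fintype E] (src dst : E → V) (f : E → ℤ) : Prop :=
  ∀ v : V, ∑ e ∈ Finset.univ.filter (fun e => src e = v), f e
    = ∑ e ∈ Finset.univ.filter (fun e => dst e = v), f e

/-- The sets `X i`, for the nodes `i` of the graph `T`, are a tree decomposition of width at most
`w`: `T` is a tree, every edge has both ends in one of the sets, a vertex in `X i` and `X j` is in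
`X k` for all `k` on the path of `T` from `i` to `j`, and the sets have at most `w + 1` elements. -/
structure IsTreeDecomposition [DecidableEq V] (src dst : E → V) (w : ℕ) (T : SimpleGraph ι)
    (X : ι → Finset V) : Prop where
  tree : T.IsTree
  edge : ∀ e, ∃ i, src e ∈ X i ∧ dst e ∈ X i
  path : ∀ (i j : ι) (p : T.Walk i j), p.IsPath → ∀ k ∈ p.support, X i ∩ X j ⊆ X k
  width : ∀ i, (X i).card ≤ w + 1

/-- The number of the connected components of the graph with the vertices `V` and the edges `A`. -/
noncomputable def components (src dst : E → V) (A : Finset E) : ℕ :=
  Nat.card (SimpleGraph.fromRel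
    (fun u v : V => ∃ e ∈ A, src e = u ∧ dst e = v)).ConnectedComponent

/-- The rank of `A` in the cycle matroid of the graph. -/
noncomputable def cycleRank [Fintype V] (src dst : E → V) (A : Finset E) : ℕ :=
  Fintype.card V - components src dst A

/-- The rank of `A` in the bond matroid of the graph, the dual of the cycle matroid:
`|A| + r(E \ A) - r(E)`. -/
noncomputable def bondRank [Fintype V] [Fintype E] [DecidableEq E] (src dst : E → V)
    (A : Finset E) : ℕ :=
  A.card + cycleRank src dst Aᶜ - cycleRank src dst Finset.univ

/-- The characteristic polynomial of the bond matroid, `∑ (-1)^|A| x^(r*(E) - r*(A))`. -/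
noncomputable def characteristic [Fintype V] [Fintype E] [DecidableEq E] (src dst : E → V)
    (x : ℤ) : ℤ :=
  ∑ A : Finset E, (-1) ^ A.card * x ^ (bondRank src dst Finset.univ - bondRank src dst A)

theorem isFlow_iff [DecidableEq V] [Fintype E] (src dst : E → V) (f : E → ℤ) :
    IsFlow src dst f ↔
      ∀ v, ∑ e, f e * ((if src e = v then 1 else 0) - (if dst e = v then 1 else 0)) = 0 := by
  unfold IsFlow
  refine forall_congr' fun v => ?_
  rw [Finset.sum_filter, Finset.sum_filter, ← sub_eq_zero, ← Finset.sum_sub_distrib]
  have : ∀ e, (if src e = v then f e else 0) - (if dst e = v then f e else 0)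
      = f e * ((if src e = v then 1 else 0) - (if dst e = v then 1 else 0)) := by
    intro e
    by_cases h1 : src e = v <;> by_cases h2 : dst e = v <;> simp [h1, h2]
  rw [Finset.sum_congr rfl (fun e _ => this e)]

theorem nzf [Fintype V] [DecidableEq V] [Fintype E] [DecidableEq E] (src dst : E → V)
    (h : Pool.Agent.TH676.Z.FlowOn src dst ∅ ∅) : NZF src dst := by
  obtain ⟨f, h1, _, h3⟩ := h
  refine ⟨f, fun e => h3 e (Finset.notMem_empty _) (Finset.notMem_empty _), fun x => ?_⟩
  rw [← h1 x]
  unfold Pool.Agent.TH676.Z.bd
  refine Finset.sum_congr rfl fun e _ => ?_
  unfold ic
  by_cases h4 : src e = x <;> by_cases h5 : dst e = x <;> simp [h4, h5]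

theorem flow :
    ∀ (V E ι : Type) [Fintype V] [DecidableEq V] [Fintype E] [DecidableEq E] [Fintype ι]
      (src dst : E → V) (T : SimpleGraph ι) (X : ι → Finset V),
      IsTreeDecomposition src dst 6 T X →
      (∀ Y : Finset V, (boundary src dst Y).card ≠ 1) →
      ∃ f : E → ℤ, IsFlow src dst f ∧ ∀ e, 1 ≤ |f e| ∧ |f e| ≤ 4 := by
  intro V E ι _ _ _ _ _ src dst T X hX hb
  have hTD : HasTD 7 src dst := HasTD.of_tree hX.tree
    (fun i j p hp k hk v hi hj => hX.path i j p hp k hk (Finset.mem_inter.mpr ⟨hi, hj⟩))
    hX.edge hX.width
  have hfl := Pool.Agent.TH676.Z.flowOn hTD (fun Y _ => by rw [Finset.sdiff_empty]; exact hb Y)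
  obtain ⟨F, hF, hF0⟩ := int_flow src dst (nzf src dst hfl)
  exact ⟨F, (isFlow_iff src dst F).mpr hF0, hF⟩

theorem result :
    ∀ (V E ι : Type) [Fintype V] [DecidableEq V] [Fintype E] [DecidableEq E] [Fintype ι]
      (src dst : E → V) (T : SimpleGraph ι) (X : ι → Finset V),
      IsTreeDecomposition src dst 6 T X →
      (∀ Y : Finset V, (boundary src dst Y).card ≠ 1) →
      ∀ q : ℕ, 5 ≤ q → 0 < characteristic src dst q := by
  intro V E ι _ _ _ _ _ src dst T X hX hb q hq
  obtain ⟨f, hf0, hf⟩ := flow V E ι src dst T X hX hb
  exact Pool.Agent.TH362.FP.chr_pos src dst f hf hf0 q hq

end Pool.Agent.Results.MP_c8786f_co.TreewidthSix
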